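import Pool.Agent.Lib.MP_5d68ca_lc.Final

open FirstOrder Pool.Agent.Lib.MP_5d68ca_lc

namespace Pool.Agent.Lib.MP_5d68ca_lc.Variants.SimpleNotMaximal

/-- In ZFC, for every index `κ`: no theory with the tree property is below a simple theory in the
interpretability order, and every maximal theory has the tree property. -/
theorem result (κ : Cardinal.{0}) (L₁ : FirstOrder.Language.{0, 0}) [Countable L₁.Symbols]
    (T₁ : L₁.Theory) :
    (∀ (L₀ : FirstOrder.Language.{0, 0}) (T₀ : L₀.Theory),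
      T₀.IsComplete → HasTP T₀ → ¬HasTP T₁ → ¬InterpLe κ T₀ T₁) ∧
    ((∀ (L₀ : FirstOrder.Language.{0, 0}) (T₀ : L₀.Theory),
      Countable L₀.Symbols → T₀.IsComplete → InterpLe κ T₀ T₁) → HasTP T₁) :=
  ⟨fun _ _ h0 h1 h2 => main κ h0 h1 h2, hasTP_of_maximal κ⟩

end Pool.Agent.Lib.MP_5d68ca_lc.Variants.SimpleNotMaximal
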